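import Pool.Agent.Q36.ColBin.Basic

/-!
Chebyshev structure of `U (R ^ j)`.
-/

open PowerSeries Finset

namespace Pool.Agent.Q36.ColBin

/-- `y = x / (1 - x)^2 = ∑ n x^n` -/
noncomputable def y : PowerSeries ℤ := X * geo 1 ^ 2

/-- `u = 4 y = R ^ 2 - 1` -/
noncomputable def u : PowerSeries ℤ := 4 * y

/-- `x / (1 - x)` -/
noncomputable def z : PowerSeries ℤ := X * geo 1

lemma geo_one_rel : (1 - X) * geo 1 = 1 := by simpa using one_sub_mul_geo (a := 1) one_pos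

lemma R_eq_z : R = 1 + 2 * z := by
  have h := geo_one_rel
  rw [R, z]; linear_combination h

lemma u_eq : u = R ^ 2 - 1 := by
  have h := geo_one_rel
  rw [R, u, y]
  linear_combination (-((1 - X) * geo 1 + 1)) * h

lemma R_sq : R ^ 2 = 1 + u := by rw [u_eq]; ring

lemma E_R : E R = (1 + X ^ 2) * geo 2 := by
  rw [R, map_mul, map_add, map_one, E_X, E_geo]

lemma R_quad : R ^ 2 = 2 * (E R * R) - 1 := by
  have h := one_sub_mul_geo (a := 2) two_pos
  rw [E_R, R_eq]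
  linear_combination (-((1 - X ^ 2) * geo 2 + 1)) * h

lemma E_y : E y = X ^ 2 * geo 2 ^ 2 := by
  rw [y, map_mul, map_pow, E_X, E_geo]

lemma E_u : E u = 4 * (X ^ 2 * geo 2 ^ 2) := by
  rw [u, map_mul, E_y]
  congr 1
  exact map_ofNat E 4

lemma u_quad : u ^ 2 = 4 * (E u * (1 + u)) := by
  rw [← R_sq, E_u, u, y, R, geo_one_eq]
  ring

lemma U_one : U 1 = 1 := by
  ext n
  rw [coeff_U, coeff_one, coeff_one]
  congr 1
  simp

lemma coeff_R (n : ℕ) : coeff n R = if n = 0 then 1 else 2 := by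
  rw [R_eq_z, z, map_add, coeff_one]
  have h : (2 : PowerSeries ℤ) * (X * geo 1) = X ^ 1 * (geo 1 + geo 1) := by ring
  rw [h, coeff_X_pow_mul']
  rcases n with _ | n
  · simp
  · simp [coeff_geo]

lemma U_R : U R = R := by
  ext n
  rw [coeff_U, coeff_R, coeff_R]
  congr 1
  simp

/-- `τ j = U (R ^ j)` -/
noncomputable def τ (j : ℕ) : PowerSeries ℤ := U (R ^ j)

lemma τ_zero : τ 0 = 1 := by rw [τ, pow_zero, U_one]

lemma τ_one : τ 1 = R := by rw [τ, pow_one, U_R]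

lemma two_mul_U (G : PowerSeries ℤ) : U (2 * G) = 2 * U G := by
  rw [two_mul, map_add, two_mul]

lemma four_mul_U (G : PowerSeries ℤ) : U (4 * G) = 4 * U G := by
  have : (4 : PowerSeries ℤ) * G = 2 * (2 * G) := by ring
  rw [this, two_mul_U, two_mul_U]; ring

lemma U_mul_E' (G H : PowerSeries ℤ) : U (E H * G) = H * U G := by
  rw [mul_comm, U_mul_E, mul_comm]

lemma τ_add_two (j : ℕ) : τ (j + 2) = 2 * (R * τ (j + 1)) - τ j := by
  have h : R ^ (j + 2) = 2 * (E R * R ^ (j + 1)) - R ^ j := by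
    linear_combination (R ^ j) * R_quad
  rw [τ, h, map_sub, two_mul_U, U_mul_E', ← τ, ← τ]

lemma τ_eq_cheb (j : ℕ) : τ j = Polynomial.aeval R (Polynomial.Chebyshev.T ℤ j) := by
  induction j using Nat.twoStepInduction with
  | zero => rw [τ_zero]; simp
  | one => rw [τ_one]; simp
  | more j h1 h2 =>
    rw [τ_add_two, h1, h2]
    have h3 : Polynomial.Chebyshev.T ℤ ((j + 2 : ℕ) : ℤ) =
        2 * Polynomial.X * Polynomial.Chebyshev.T ℤ ((j + 1 : ℕ) : ℤ) -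
          Polynomial.Chebyshev.T ℤ (j : ℤ) := by
      push_cast
      exact Polynomial.Chebyshev.T_add_two ℤ j
    rw [h3, map_sub, map_mul, map_mul, Polynomial.aeval_X]
    have h4 : (Polynomial.aeval R) (2 : Polynomial ℤ) = 2 := map_ofNat _ 2
    rw [h4]
    ring

lemma τ_double (j : ℕ) : τ (2 * j) = 2 * τ j ^ 2 - 1 := by
  rw [τ_eq_cheb, τ_eq_cheb]
  have h : Polynomial.Chebyshev.T ℤ ((2 * j : ℕ) : ℤ) =
      2 * Polynomial.Chebyshev.T ℤ (j : ℤ) ^ 2 - 1 := by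
    push_cast
    rw [Polynomial.Chebyshev.T_mul, Polynomial.Chebyshev.T_two]
    simp
  rw [h, map_sub, map_mul, map_pow, map_one]
  have h4 : (Polynomial.aeval R) (2 : Polynomial ℤ) = 2 := map_ofNat _ 2
  rw [h4]

/-- `δ j = U (u R ^ j)` -/
noncomputable def δ (j : ℕ) : PowerSeries ℤ := U (u * R ^ j)

lemma τ_add_two' (j : ℕ) : τ (j + 2) = τ j + δ j := by
  have h : R ^ (j + 2) = R ^ j + u * R ^ j := by rw [pow_add, R_sq]; ring
  rw [τ, h, map_add]; rfl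

lemma U_usq (G : PowerSeries ℤ) : U (u ^ 2 * G) = 4 * u * U (R ^ 2 * G) := by
  have h : u ^ 2 * G = 4 * (E u * (R ^ 2 * G)) := by
    rw [u_quad, R_sq]; ring
  rw [h, four_mul_U, U_mul_E']; ring

lemma δ_add_two (j : ℕ) : δ (j + 2) = δ j + 4 * u * τ (j + 2) := by
  have h : u * R ^ (j + 2) = u * R ^ j + u ^ 2 * R ^ j := by rw [pow_add, R_sq]; ring
  rw [δ, h, map_add, U_usq, ← δ, ← pow_add, add_comm 2 j, ← τ]

lemma δ_zero : δ 0 = 2 * u := by
  have h := τ_add_two' 0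
  have h2 := τ_add_two 0
  rw [zero_add] at h h2
  rw [τ_zero] at h h2
  rw [zero_add, τ_one] at h2
  rw [u_eq]
  linear_combination h2 - h

lemma δ_one : δ 1 = 4 * u * R := by
  have h := τ_add_two' 1
  have h3 := τ_add_two 1
  have h2 := τ_add_two 0
  rw [zero_add, zero_add, τ_zero, τ_one] at h2
  norm_num at h h3
  rw [τ_one] at h h3
  rw [u_eq]
  linear_combination h3 - h + 2 * R * h2

/-- the subalgebra `ℤ[u]` -/
noncomputable def S : Subalgebra ℤ (PowerSeries ℤ) := (Polynomial.aeval (R := ℤ) u).range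

lemma u_mem : u ∈ S := ⟨Polynomial.X, by simp⟩

lemma R_sq_mem : R ^ 2 ∈ S := by rw [R_sq]; exact S.add_mem S.one_mem u_mem

lemma four_mem : (4 : PowerSeries ℤ) ∈ S := by
  simp

lemma two_mem : (2 : PowerSeries ℤ) ∈ S := by
  simp

/-- (T1) and membership -/
lemma δ_even (j : ℕ) : (∃ s ∈ S, δ (2 * j) = 2 * u * (1 + 2 * s)) ∧
    (∃ s ∈ S, τ (2 * j) = 1 + 2 * u * s) := by
  induction j with
  | zero =>
    refine ⟨⟨0, S.zero_mem, ?_⟩, ⟨0, S.zero_mem, ?_⟩⟩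
    · rw [mul_zero, δ_zero]; ring
    · rw [mul_zero, τ_zero]; ring
  | succ j ih =>
    obtain ⟨⟨s, hs, h1⟩, ⟨t, ht, h2⟩⟩ := ih
    have e : 2 * (j + 1) = 2 * j + 2 := by ring
    have h3 : τ (2 * (j + 1)) = 1 + 2 * u * (t + (1 + 2 * s)) := by
      rw [e, τ_add_two', h1, h2]; ring
    have hts : t + (1 + 2 * s) ∈ S :=
      S.add_mem ht (S.add_mem S.one_mem (S.mul_mem two_mem hs))
    refine ⟨⟨s + (1 + 2 * u * (t + (1 + 2 * s))), ?_, ?_⟩, ⟨t + (1 + 2 * s), hts, h3⟩⟩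
    · exact S.add_mem hs (S.add_mem S.one_mem (S.mul_mem (S.mul_mem two_mem u_mem) hts))
    · rw [e, δ_add_two, h1, ← e, h3]; ring

lemma τ_even_mem (j : ℕ) : τ (2 * j) ∈ S := by
  obtain ⟨s, hs, h⟩ := (δ_even j).2
  rw [h]
  exact S.add_mem S.one_mem (S.mul_mem (S.mul_mem two_mem u_mem) hs)

/-- (O1), (O2) -/
lemma δ_odd (j : ℕ) : (∃ s ∈ S, δ (2 * j + 1) = 4 * u * R * ((j : PowerSeries ℤ) + 1) +
      16 * u ^ 2 * R * s) ∧
    (∃ s ∈ S, τ (2 * j + 1) = R * (1 + 2 * ((j : PowerSeries ℤ) * (j + 1)) * u +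
      16 * u ^ 2 * s)) := by
  induction j with
  | zero =>
    refine ⟨⟨0, S.zero_mem, ?_⟩, ⟨0, S.zero_mem, ?_⟩⟩
    · rw [mul_zero, zero_add, δ_one]; push_cast; ring
    · rw [mul_zero, zero_add, τ_one]; push_cast; ring
  | succ j ih =>
    obtain ⟨⟨s, hs, h1⟩, ⟨t, ht, h2⟩⟩ := ih
    have e : 2 * (j + 1) + 1 = 2 * j + 1 + 2 := by ring
    have h3 : τ (2 * (j + 1) + 1) = R * (1 + 2 * (((j + 1 : ℕ) : PowerSeries ℤ) *
        (((j + 1 : ℕ) : PowerSeries ℤ) + 1)) * u + 16 * u ^ 2 * (t + s)) := by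
      rw [e, τ_add_two', h1, h2]; push_cast; ring
    obtain ⟨N, hN⟩ : ∃ N : ℕ, (j + 1) * (j + 2) = 2 * N := by
      have h := Nat.even_mul_succ_self (j + 1)
      obtain ⟨N, hN⟩ := h
      exact ⟨N, by rw [← two_mul] at hN; exact hN⟩
    have hN' : ((j : PowerSeries ℤ) + 1) * (j + 2) = 2 * (N : PowerSeries ℤ) := by
      have := congrArg (Nat.cast : ℕ → PowerSeries ℤ) hN
      push_cast at this
      exact this
    have hNm : (N : PowerSeries ℤ) ∈ S := S.natCast_mem N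
    have hts : t + s ∈ S := S.add_mem ht hs
    have h4 : δ (2 * (j + 1) + 1) = 4 * u * R * (((j + 1 : ℕ) : PowerSeries ℤ) + 1) +
        16 * u ^ 2 * R * (s + (N : PowerSeries ℤ) + 4 * u * (t + s)) := by
      rw [e, δ_add_two, h1, ← e, h3]
      push_cast
      linear_combination (8 * u ^ 2 * R) * hN'
    exact ⟨⟨_, S.add_mem (S.add_mem hs hNm) (S.mul_mem (S.mul_mem four_mem u_mem) hts), h4⟩,
      ⟨_, hts, h3⟩⟩

/-- (T2), (T3) -/
lemma δ_even' (j : ℕ) : (∃ s ∈ S, δ (2 * j) = 2 * u * (1 + 2 * (j : PowerSeries ℤ)) +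
      8 * u ^ 2 * s) ∧
    (∃ s ∈ S, τ (2 * j) = 1 + 2 * (j : PowerSeries ℤ) ^ 2 * u + 8 * u ^ 2 * s) := by
  induction j with
  | zero =>
    refine ⟨⟨0, S.zero_mem, ?_⟩, ⟨0, S.zero_mem, ?_⟩⟩
    · rw [mul_zero, δ_zero]; push_cast; ring
    · rw [mul_zero, τ_zero]; push_cast; ring
  | succ j ih =>
    obtain ⟨⟨s, hs, h1⟩, ⟨t, ht, h2⟩⟩ := ih
    obtain ⟨r, hr, h5⟩ := (δ_even (j + 1)).2
    have e : 2 * (j + 1) = 2 * j + 2 := by ring
    refine ⟨⟨s + r, S.add_mem hs hr, ?_⟩, ⟨t + s, S.add_mem ht hs, ?_⟩⟩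
    · rw [e, δ_add_two, h1, ← e, h5]; push_cast; ring
    · rw [e, τ_add_two', h1, h2]; push_cast; ring

/-- (T4): the formula for `τ (4 a)` -/
lemma τ_four (a : ℕ) : ∃ s ∈ S, τ (4 * a) = 1 + 8 * (a : PowerSeries ℤ) ^ 2 * u +
    8 * (a : PowerSeries ℤ) ^ 4 * u ^ 2 + 32 * u ^ 2 * s := by
  obtain ⟨s, hs, h⟩ := (δ_even' a).2
  have e : 4 * a = 2 * (2 * a) := by ring
  refine ⟨s + 2 * (a : PowerSeries ℤ) ^ 2 * u * s + 4 * u ^ 2 * s ^ 2, ?_, ?_⟩
  · have ha := S.natCast_mem a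
    refine S.add_mem (S.add_mem hs (S.mul_mem (S.mul_mem (S.mul_mem two_mem (S.pow_mem ha 2))
      u_mem) hs)) (S.mul_mem (S.mul_mem four_mem (S.pow_mem u_mem 2)) (S.pow_mem hs 2))
  · rw [e, τ_double, h]; ring

lemma U_zsmul (a : ℤ) (G : PowerSeries ℤ) : U (a • G) = a • U G := map_smul U a G

/-- a property of elements of `ℤ[u]` that is additive and holds for powers of `u` -/
lemma S_induction {P : PowerSeries ℤ → Prop} (hadd : ∀ G H, P G → P H → P (G + H))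
    (hsmul : ∀ (a : ℤ) G, P G → P (a • G)) (hpow : ∀ n : ℕ, P (u ^ n)) :
    ∀ G ∈ S, P G := by
  rintro G ⟨p, rfl⟩
  induction p using Polynomial.induction_on' with
  | add p q hp hq =>
    change P (Polynomial.aeval u (p + q))
    rw [map_add]; exact hadd _ _ hp hq
  | monomial n a =>
    change P (Polynomial.aeval u (Polynomial.monomial n a))
    rw [Polynomial.aeval_monomial, ← Algebra.smul_def]
    exact hsmul a _ (hpow n)

lemma smul_mem_S (a : ℤ) {G : PowerSeries ℤ} (h : G ∈ S) : a • G ∈ S := S.smul_mem h a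

/-- even exponents: stability of `ℤ[u]` -/
lemma U_even_pow (n : ℕ) : ∀ j, U (u ^ n * R ^ (2 * j)) ∈ S := by
  induction n using Nat.twoStepInduction with
  | zero => intro j; rw [pow_zero, one_mul]; exact τ_even_mem j
  | one =>
    intro j
    rw [pow_one]
    obtain ⟨s, hs, h⟩ := (δ_even j).1
    change δ (2 * j) ∈ S
    rw [h]
    exact S.mul_mem (S.mul_mem two_mem u_mem) (S.add_mem S.one_mem (S.mul_mem two_mem hs))
  | more n h1 _ =>
    intro j
    have e : u ^ (n + 2) * R ^ (2 * j) = u ^ 2 * (u ^ n * R ^ (2 * j)) := by ring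
    have e2 : R ^ 2 * (u ^ n * R ^ (2 * j)) = u ^ n * R ^ (2 * (j + 1)) := by ring
    rw [e, U_usq, e2]
    exact S.mul_mem (S.mul_mem four_mem u_mem) (h1 (j + 1))

lemma U_even (j : ℕ) : ∀ G ∈ S, U (G * R ^ (2 * j)) ∈ S := by
  refine S_induction (fun G H hG hH => ?_) (fun a G hG => ?_) (fun n => U_even_pow n j)
  · rw [add_mul, map_add]; exact S.add_mem hG hH
  · rw [smul_mul_assoc, U_zsmul]; exact smul_mem_S a hG

lemma ε_u : constantCoeff u = 0 := by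
  rw [u, y]; simp

/-- even exponents, the ideal generated by `u` -/
lemma U_even_u (j : ℕ) : ∀ G ∈ S, ∃ r ∈ S,
    U (u * G * R ^ (2 * j)) = 2 * u * ((C (constantCoeff G) : PowerSeries ℤ) + 2 * r) := by
  refine S_induction (fun G H hG hH => ?_) (fun a G hG => ?_) (fun n => ?_)
  · obtain ⟨r, hr, h1⟩ := hG
    obtain ⟨t, ht, h2⟩ := hH
    refine ⟨r + t, S.add_mem hr ht, ?_⟩
    have e : u * (G + H) * R ^ (2 * j) = u * G * R ^ (2 * j) + u * H * R ^ (2 * j) := by ring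
    rw [e, map_add, h1, h2, map_add, map_add]; ring
  · obtain ⟨r, hr, h1⟩ := hG
    refine ⟨a • r, smul_mem_S a hr, ?_⟩
    have e : u * (a • G) * R ^ (2 * j) = a • (u * G * R ^ (2 * j)) := by
      rw [mul_smul_comm, smul_mul_assoc]
    rw [e, U_zsmul, h1]
    have e2 : constantCoeff (a • G) = a * constantCoeff G := by
      rw [zsmul_eq_mul, map_mul]; simp
    rw [e2, map_mul, zsmul_eq_mul, zsmul_eq_mul]
    have e3 : ((a : ℤ) : PowerSeries ℤ) = C a := by simp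
    rw [e3]; ring
  · rcases n with _ | n
    · obtain ⟨s, hs, h⟩ := (δ_even j).1
      refine ⟨s, hs, ?_⟩
      rw [pow_zero, mul_one, map_one, map_one]
      exact h
    · refine ⟨U (u ^ n * R ^ (2 * (j + 1))), U_even_pow n (j + 1), ?_⟩
      have e : u * u ^ (n + 1) * R ^ (2 * j) = u ^ 2 * (u ^ n * R ^ (2 * j)) := by ring
      have e2 : R ^ 2 * (u ^ n * R ^ (2 * j)) = u ^ n * R ^ (2 * (j + 1)) := by ring
      rw [e, U_usq, e2, map_pow, ε_u, zero_pow (by omega), map_zero]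
      ring

/-- odd exponents -/
lemma U_odd_pow (n : ℕ) : ∀ j, ∃ s ∈ S, U (u ^ n * R ^ (2 * j + 1)) = R * s := by
  induction n using Nat.twoStepInduction with
  | zero =>
    intro j
    obtain ⟨s, hs, h⟩ := (δ_odd j).2
    refine ⟨1 + 2 * ((j : PowerSeries ℤ) * (j + 1)) * u + 16 * u ^ 2 * s, ?_, ?_⟩
    · have hj := S.natCast_mem j
      have h16 : (16 : PowerSeries ℤ) ∈ S := by simp
      exact S.add_mem (S.add_mem S.one_mem (S.mul_mem (S.mul_mem two_mem (S.mul_mem hj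
        (S.add_mem hj S.one_mem))) u_mem)) (S.mul_mem (S.mul_mem h16 (S.pow_mem u_mem 2)) hs)
    · rw [pow_zero, one_mul]; exact h
  | one =>
    intro j
    obtain ⟨s, hs, h⟩ := (δ_odd j).1
    refine ⟨4 * u * ((j : PowerSeries ℤ) + 1) + 16 * u ^ 2 * s, ?_, ?_⟩
    · have hj := S.natCast_mem j
      have h16 : (16 : PowerSeries ℤ) ∈ S := by simp
      exact S.add_mem (S.mul_mem (S.mul_mem four_mem u_mem) (S.add_mem hj S.one_mem))
        (S.mul_mem (S.mul_mem h16 (S.pow_mem u_mem 2)) hs)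
    · rw [pow_one]
      change δ (2 * j + 1) = _
      rw [h]; ring
  | more n h1 _ =>
    intro j
    obtain ⟨s, hs, h⟩ := h1 (j + 1)
    have e : u ^ (n + 2) * R ^ (2 * j + 1) = u ^ 2 * (u ^ n * R ^ (2 * j + 1)) := by ring
    have e2 : R ^ 2 * (u ^ n * R ^ (2 * j + 1)) = u ^ n * R ^ (2 * (j + 1) + 1) := by ring
    refine ⟨4 * u * s, S.mul_mem (S.mul_mem four_mem u_mem) hs, ?_⟩
    rw [e, U_usq, e2, h]; ring

lemma U_odd_u_pow (n j : ℕ) : ∃ s ∈ S, U (u * u ^ n * R ^ (2 * j + 1)) = 4 * u * R * s := by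
  rcases n with _ | n
  · obtain ⟨s, hs, h⟩ := (δ_odd j).1
    refine ⟨(j : PowerSeries ℤ) + 1 + 4 * u * s, ?_, ?_⟩
    · have hj := S.natCast_mem j
      exact S.add_mem (S.add_mem hj S.one_mem) (S.mul_mem (S.mul_mem four_mem u_mem) hs)
    · rw [pow_zero, mul_one]
      change δ (2 * j + 1) = _
      rw [h]; ring
  · obtain ⟨s, hs, h⟩ := U_odd_pow n (j + 1)
    have e : u * u ^ (n + 1) * R ^ (2 * j + 1) = u ^ 2 * (u ^ n * R ^ (2 * j + 1)) := by ring
    have e2 : R ^ 2 * (u ^ n * R ^ (2 * j + 1)) = u ^ n * R ^ (2 * (j + 1) + 1) := by ring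
    refine ⟨s, hs, ?_⟩
    rw [e, U_usq, e2, h]; ring

lemma U_odd_u (j : ℕ) : ∀ G ∈ S, ∃ s ∈ S, U (u * G * R ^ (2 * j + 1)) = 4 * u * R * s := by
  refine S_induction (fun G H hG hH => ?_) (fun a G hG => ?_) (fun n => U_odd_u_pow n j)
  · obtain ⟨r, hr, h1⟩ := hG
    obtain ⟨t, ht, h2⟩ := hH
    refine ⟨r + t, S.add_mem hr ht, ?_⟩
    have e : u * (G + H) * R ^ (2 * j + 1) = u * G * R ^ (2 * j + 1) + u * H * R ^ (2 * j + 1) := by
      ring
    rw [e, map_add, h1, h2]; ring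
  · obtain ⟨r, hr, h1⟩ := hG
    refine ⟨a • r, smul_mem_S a hr, ?_⟩
    have e : u * (a • G) * R ^ (2 * j + 1) = a • (u * G * R ^ (2 * j + 1)) := by
      rw [mul_smul_comm, smul_mul_assoc]
    rw [e, U_zsmul, h1, mul_smul_comm]

end Pool.Agent.Q36.ColBin
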