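import Mathlib

/-!
Coloured binary partitions: the functional equation and the operator `U`.
-/

open PowerSeries Finset

namespace Pool.Agent.Q36.ColBin

/-- the geometric series `1 / (1 - X ^ a) = 1 + X ^ a + X ^ (2 a) + …` -/
noncomputable def geo (a : ℕ) : PowerSeries ℤ := PowerSeries.mk (fun n => if a ∣ n then 1 else 0)

/-- The integer `c_m(n)`: the coefficient of `x ^ n` in
`(1 - x) ^ (-m) * ∏_{i ≥ 0} (1 - x ^ (2 ^ i)) ^ (-m)`. The factors with `i > n` do not
influence this coefficient, so the product is taken over `0 ≤ i ≤ n`. -/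
noncomputable def c (m n : ℕ) : ℤ :=
  PowerSeries.coeff n (geo 1 ^ m * ∏ i ∈ range (n + 1), geo (2 ^ i) ^ m)

lemma coeff_geo (a n : ℕ) : coeff n (geo a) = if a ∣ n then 1 else 0 := by simp [geo]

lemma one_sub_mul_geo {a : ℕ} (ha : 0 < a) : (1 - X ^ a) * geo a = 1 := by
  ext n
  rw [sub_mul, one_mul, map_sub, coeff_X_pow_mul', coeff_geo, coeff_one]
  by_cases hd : a ∣ n
  · obtain ⟨q, rfl⟩ := hd
    rcases q with _ | q
    · simp [ha.ne']
    · have h1 : a ≤ a * (q + 1) := Nat.le_mul_of_pos_right a (by omega)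
      have h2 : a * (q + 1) - a = a * q := by rw [mul_add, mul_one, Nat.add_sub_cancel]
      rw [if_pos ⟨_, rfl⟩, if_pos h1, h2, coeff_geo, if_pos ⟨_, rfl⟩, if_neg (by positivity)]
      ring
  · have hn : n ≠ 0 := by rintro rfl; exact hd (dvd_zero a)
    rw [if_neg hd, if_neg hn]
    split_ifs with h
    · rw [coeff_geo, if_neg, sub_zero]
      intro h'
      exact hd ((Nat.dvd_sub_iff_left h (dvd_refl a)).1 h')
    · simp

/-- the substitution `x ↦ x ^ 2` -/
noncomputable def E : PowerSeries ℤ →ₐ[ℤ] PowerSeries ℤ := PowerSeries.expand 2 two_ne_zero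

lemma coeff_E (G : PowerSeries ℤ) (n : ℕ) :
    coeff n (E G) = if 2 ∣ n then coeff (n / 2) G else 0 := by
  rw [E, PowerSeries.coeff_expand]

lemma E_X : E X = X ^ 2 := PowerSeries.expand_X _ _

lemma E_geo (a : ℕ) : E (geo a) = geo (2 * a) := by
  ext n
  rw [coeff_E, coeff_geo, coeff_geo]
  by_cases h : 2 ∣ n
  · obtain ⟨q, rfl⟩ := h
    rw [if_pos ⟨_, rfl⟩, Nat.mul_div_cancel_left _ two_pos]
    simp only [Nat.mul_dvd_mul_iff_left two_pos]
  · rw [if_neg h, if_neg]
    intro h'
    exact h ((Dvd.intro _ rfl).trans h')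

/-- truncated products -/
noncomputable def FN (m N : ℕ) : PowerSeries ℤ := geo 1 ^ m * ∏ i ∈ range N, geo (2 ^ i) ^ m

lemma coeff_mul_geo (G : PowerSeries ℤ) {b n : ℕ} (hb : n < b) :
    coeff n (G * geo b) = coeff n G := by
  have h := one_sub_mul_geo (a := b) (by omega)
  have h2 : G * geo b = G + X ^ b * (G * geo b) := by linear_combination G * h
  rw [h2, map_add, coeff_X_pow_mul', if_neg (by omega), add_zero]

lemma coeff_mul_geo_pow (m : ℕ) {b n : ℕ} (hb : n < b) : ∀ G : PowerSeries ℤ,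
    coeff n (G * geo b ^ m) = coeff n G := by
  induction m with
  | zero => intro G; simp
  | succ m ih => intro G; rw [pow_succ', ← mul_assoc, ih, coeff_mul_geo G hb]

lemma coeff_FN_succ (m : ℕ) {N n : ℕ} (h : n < 2 ^ N) :
    coeff n (FN m (N + 1)) = coeff n (FN m N) := by
  rw [FN, prod_range_succ, ← mul_assoc, coeff_mul_geo_pow m h]; rfl

lemma coeff_FN (m n N : ℕ) (hN : n + 1 ≤ N) : coeff n (FN m N) = c m n := by
  induction N, hN using Nat.le_induction with
  | base => rfl
  | succ N hN ih =>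
    rw [coeff_FN_succ m, ih]
    calc n < N := hN
      _ < 2 ^ N := Nat.lt_two_pow_self

/-- the generating function -/
noncomputable def F (m : ℕ) : PowerSeries ℤ := PowerSeries.mk (c m)

lemma coeff_F (m n : ℕ) : coeff n (F m) = c m n := by simp [F]

/-- `R = (1 + x) / (1 - x)` -/
noncomputable def R : PowerSeries ℤ := (1 + X) * geo 1

lemma geo_one_eq : geo 1 = (1 + X) * geo 2 := by
  have h1 := one_sub_mul_geo (a := 1) one_pos
  have h2 := one_sub_mul_geo (a := 2) two_pos
  linear_combination (-(geo 1)) * h2 + ((1 + X) * geo 2) * h1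

lemma R_eq : R = (1 + X) ^ 2 * geo 2 := by
  rw [R, geo_one_eq]; ring

lemma FN_succ (m N : ℕ) : FN m (N + 1) = R ^ m * E (FN m N) := by
  have h : ∏ i ∈ range (N + 1), geo (2 ^ i) ^ m =
      (∏ i ∈ range N, geo (2 ^ (i + 1)) ^ m) * geo 1 ^ m := by
    rw [prod_range_succ']; simp
  have h2 : E (∏ i ∈ range N, geo (2 ^ i) ^ m) = ∏ i ∈ range N, geo (2 ^ (i + 1)) ^ m := by
    rw [map_prod]
    refine prod_congr rfl fun i _ => ?_
    rw [map_pow, E_geo, pow_succ']
  rw [FN, FN, map_mul, map_pow, E_geo, h, h2]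
  have h3 : geo 1 ^ m * geo 1 ^ m = R ^ m * geo (2 * 1) ^ m := by
    rw [← mul_pow, ← mul_pow]
    congr 1
    rw [R, mul_one]
    have := geo_one_eq
    linear_combination (geo 1) * this
  linear_combination (∏ i ∈ range N, geo (2 ^ (i + 1)) ^ m) * h3

lemma F_eq (m : ℕ) : F m = R ^ m * E (F m) := by
  ext n
  rw [coeff_F, ← coeff_FN m n (n + 2) (by omega), FN_succ, coeff_mul, coeff_mul]
  refine sum_congr rfl fun ij hij => ?_
  rw [HasAntidiagonal.mem_antidiagonal] at hij
  congr 1
  rw [coeff_E, coeff_E]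
  split_ifs
  · rw [coeff_F, coeff_FN m _ _ (by omega)]
  · rfl

/-- the operator taking the even-indexed coefficients -/
noncomputable def U : PowerSeries ℤ →ₗ[ℤ] PowerSeries ℤ where
  toFun G := PowerSeries.mk (fun n => coeff (2 * n) G)
  map_add' G H := by ext n; simp
  map_smul' a G := by
    ext n
    rw [PowerSeries.coeff_mk, map_smul, RingHom.id_apply, map_smul, PowerSeries.coeff_mk]

lemma coeff_U (G : PowerSeries ℤ) (n : ℕ) : coeff n (U G) = coeff (2 * n) G := by
  simp [U]

lemma U_mul_E (G H : PowerSeries ℤ) : U (G * E H) = U G * H := by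
  ext n
  rw [coeff_U, coeff_mul, coeff_mul]
  symm
  refine sum_of_injOn (fun ij => (2 * ij.1, 2 * ij.2)) ?_ ?_ ?_ ?_
  · intro a _ b _ h
    simp only [Prod.mk.injEq] at h
    ext <;> omega
  · intro ij hij
    simp only [mem_coe] at hij ⊢
    rw [HasAntidiagonal.mem_antidiagonal] at hij ⊢
    simp only
    omega
  · intro ij hij hni
    rw [HasAntidiagonal.mem_antidiagonal] at hij
    rw [coeff_E, if_neg, mul_zero]
    intro hd
    apply hni
    refine ⟨(ij.1 / 2, ij.2 / 2), ?_, ?_⟩
    · simp only [mem_coe]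
      rw [HasAntidiagonal.mem_antidiagonal]
      simp only
      omega
    · ext
      · simp only; omega
      · simp only; omega
  · intro ij _
    simp only
    rw [coeff_U, coeff_E, if_pos (Dvd.intro _ rfl), Nat.mul_div_cancel_left _ two_pos]

end Pool.Agent.Q36.ColBin
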