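import Pool.Agent.Q36.ColBin.Alg

/-!
Valuations of `c_m(4n) - c_m(n)`.
-/

open PowerSeries Finset

namespace Pool.Agent.Q36.ColBin

lemma c_zero (m : ℕ) : c m 0 = 1 := by
  have h : constantCoeff (geo 1) = 1 := by
    rw [← coeff_zero_eq_constantCoeff_apply, coeff_geo, if_pos (one_dvd 0)]
  unfold c
  rw [coeff_zero_eq_constantCoeff_apply, map_mul, map_pow, h, zero_add, prod_range_one,
    pow_zero, map_pow, h, one_pow, mul_one]

lemma R_pow_eq (m : ℕ) : ∃ w : PowerSeries ℤ, R ^ m = 1 + 2 * w := by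
  induction m with
  | zero => exact ⟨0, by simp⟩
  | succ m ih =>
    obtain ⟨w, hw⟩ := ih
    refine ⟨w + z + 2 * w * z, ?_⟩
    rw [pow_succ, hw, R_eq_z]; ring

lemma coeff_two_mul (G : PowerSeries ℤ) (n : ℕ) : coeff n (2 * G) = 2 * coeff n G := by
  rw [two_mul, map_add, two_mul]

lemma even_c (m n : ℕ) (hn : 1 ≤ n) : (2 : ℤ) ∣ c m n := by
  induction n using Nat.strong_induction_on with
  | _ n ih =>
    obtain ⟨w, hw⟩ := R_pow_eq m
    have h : c m n = coeff n (E (F m)) + 2 * coeff n (w * E (F m)) := by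
      conv_lhs => rw [← coeff_F, F_eq, hw, add_mul, one_mul, map_add, mul_assoc, coeff_two_mul]
    rw [h]
    apply dvd_add _ (Dvd.intro _ rfl)
    rw [coeff_E]
    split_ifs with hd
    · rw [coeff_F]; exact ih _ (by omega) (by omega)
    · exact dvd_zero _

lemma F_one (m : ℕ) : ∃ f : PowerSeries ℤ, F m = 1 + 2 * f := by
  refine ⟨PowerSeries.mk (fun n => if n = 0 then 0 else c m n / 2), ?_⟩
  ext n
  rw [coeff_F, map_add, coeff_two_mul, coeff_mk, coeff_one]
  rcases Nat.eq_zero_or_pos n with rfl | hn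
  · simp [c_zero]
  · rw [if_neg (by omega), if_neg (by omega), zero_add, Int.mul_ediv_cancel' (even_c m n hn)]

lemma coeff_y (n : ℕ) : coeff n y = n := by
  rw [y, ← pow_one X, coeff_X_pow_mul']
  rcases n with _ | n
  · simp
  · rw [if_pos (by omega), Nat.add_sub_cancel, pow_two, coeff_mul]
    simp [coeff_geo]

/-- the operator on the factor in front of `F` -/
noncomputable def V (m : ℕ) (Q : PowerSeries ℤ) : PowerSeries ℤ := U (Q * R ^ m)

lemma U_mul_F (m : ℕ) (Q : PowerSeries ℤ) : U (Q * F m) = V m Q * F m := by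
  have h : Q * F m = (Q * R ^ m) * E (F m) := by rw [mul_assoc, ← F_eq]
  rw [h, U_mul_E]; rfl

lemma coeff_iter (m s t : ℕ) : ∀ Q : PowerSeries ℤ,
    coeff (2 ^ s * t) (Q * F m) = coeff t ((V m)^[s] Q * F m) := by
  induction s with
  | zero => intro Q; simp
  | succ s ih =>
    intro Q
    rw [pow_succ', mul_assoc, ← coeff_U, U_mul_F, ih, Function.iterate_succ_apply]

/-- the factor for the difference -/
noncomputable def P (m : ℕ) : PowerSeries ℤ := V m (V m 1) - 1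

lemma diff_eq (m n : ℕ) : c m (4 * n) - c m n = coeff n (P m * F m) := by
  have h : P m * F m = U (U (F m)) - F m := by
    have h1 : U (F m) = V m 1 * F m := by rw [← U_mul_F, one_mul]
    rw [h1, U_mul_F, P, sub_mul, one_mul]
  rw [h, map_sub, coeff_U, coeff_U, coeff_F, coeff_F]
  congr 2
  ring

lemma diff_iter (m s t : ℕ) :
    c m (4 * (2 ^ s * t)) - c m (2 ^ s * t) = coeff t ((V m)^[s] (P m) * F m) := by
  rw [diff_eq, coeff_iter]

lemma coeff_two_pow_mul (e : ℕ) (G : PowerSeries ℤ) (n : ℕ) :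
    coeff n (2 ^ e * G) = 2 ^ e * coeff n G := by
  induction e generalizing G with
  | zero => simp
  | succ e ih => rw [pow_succ, mul_assoc, ih, coeff_two_mul]; ring

/-- divisibility of the coefficients -/
lemma coeff_dvd (m e : ℕ) {Q G : PowerSeries ℤ} (hQ : Q = 2 ^ e * u * G) (n : ℕ) :
    (2 : ℤ) ^ (e + 2) ∣ coeff n (Q * F m) := by
  have h : Q * F m = 2 ^ (e + 2) * (y * G * F m) := by rw [hQ, u]; ring
  rw [h, coeff_two_pow_mul]
  exact Dvd.intro _ rfl

/-- exact valuation at odd indices -/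
lemma coeff_exact (m e : ℕ) {Q H : PowerSeries ℤ} {a : ℤ} (ha : Odd a)
    (hQ : Q = 2 ^ e * u * (C a + 2 * H)) {t : ℕ} (ht : Odd t) :
    ∃ b : ℤ, Odd b ∧ coeff t (Q * F m) = 2 ^ (e + 2) * b := by
  obtain ⟨f, hf⟩ := F_one m
  have h : Q * F m = 2 ^ (e + 2) * (C a * y + 2 * (y * (H * (1 + 2 * f) + C a * f))) := by
    rw [hQ, hf, u]; ring
  refine ⟨a * t + 2 * coeff t (y * (H * (1 + 2 * f) + C a * f)), ?_, ?_⟩
  · have h1 : Odd (a * (t : ℤ)) := ha.mul (by exact_mod_cast ht)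
    exact h1.add_even (even_two_mul _)
  · rw [h, coeff_two_pow_mul, map_add, coeff_C_mul, coeff_y, coeff_two_mul]

lemma emult_eq {x b : ℤ} {e : ℕ} (hb : Odd b) (h : x = 2 ^ e * b) :
    emultiplicity (2 : ℤ) x = e := by
  have h2 : ¬ (2 : ℤ) ∣ b := by
    rw [← Int.not_even_iff_odd] at hb
    exact fun h => hb (even_iff_two_dvd.2 h)
  rw [h, emultiplicity_mul Int.prime_two, emultiplicity_pow_self_of_prime Int.prime_two,
    emultiplicity_eq_zero.2 h2, add_zero]

lemma le_emult {x : ℤ} {e : ℕ} (h : (2 : ℤ) ^ e ∣ x) : (e : ℕ∞) ≤ emultiplicity (2 : ℤ) x :=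
  le_emultiplicity_of_pow_dvd h

lemma padic_two {s t : ℕ} (ht : Odd t) : padicValNat 2 (2 ^ s * t) = s := by
  have h0 : t ≠ 0 := by rintro rfl; simp at ht
  have h1 : ¬ 2 ∣ t := by
    intro h
    exact (Nat.not_even_iff_odd.2 ht) (even_iff_two_dvd.2 h)
  rw [padicValNat.mul (by positivity) h0, padicValNat.prime_pow,
    padicValNat.eq_zero_of_not_dvd h1, add_zero]

lemma odd_part (n : ℕ) (hn : 1 ≤ n) : ∃ s t : ℕ, Odd t ∧ n = 2 ^ s * t := by
  obtain ⟨s, t, ht, h⟩ := Nat.exists_eq_two_pow_mul_odd (n := n) (by omega)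
  exact ⟨s, t, ht, h⟩

/-! ### even `m` -/

lemma τ_val (a : ℕ) : ∀ b : ℕ, Odd b → ∃ s ∈ S, Odd (constantCoeff s) ∧
    τ (2 * (2 ^ a * b)) = 1 + 2 ^ (1 + 2 * a) * u * s := by
  induction a with
  | zero =>
    intro b hb
    obtain ⟨s, hs, h⟩ := (δ_even' b).2
    refine ⟨(b : PowerSeries ℤ) ^ 2 + 4 * u * s, ?_, ?_, ?_⟩
    · exact S.add_mem (S.pow_mem (S.natCast_mem b) 2) (S.mul_mem (S.mul_mem four_mem u_mem) hs)
    · rw [map_add, map_mul, map_mul, ε_u, mul_zero, zero_mul, add_zero, map_pow, map_natCast]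
      exact Odd.pow (by exact_mod_cast hb)
    · rw [pow_zero, one_mul, h]; ring
  | succ a ih =>
    intro b hb
    obtain ⟨s, hs, ho, h⟩ := ih b hb
    have e : 2 * (2 ^ (a + 1) * b) = 2 * (2 * (2 ^ a * b)) := by ring
    refine ⟨s + 2 ^ (2 * a) * u * s ^ 2, ?_, ?_, ?_⟩
    · exact S.add_mem hs (S.mul_mem (S.mul_mem (S.pow_mem two_mem _) u_mem) (S.pow_mem hs 2))
    · rw [map_add, map_mul, map_mul, ε_u, mul_zero, zero_mul, add_zero]
      exact ho
    · rw [e, τ_double, h]; ring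

lemma C_const_mem {G : PowerSeries ℤ} : (C (constantCoeff G) : PowerSeries ℤ) ∈ S := by
  simp

lemma V_zero (m : ℕ) : V m 0 = 0 := by rw [V, zero_mul, map_zero]

lemma V_add (m : ℕ) (G H : PowerSeries ℤ) : V m (G + H) = V m G + V m H := by
  rw [V, add_mul, map_add]; rfl

lemma U_two_pow (e : ℕ) (G : PowerSeries ℤ) : U (2 ^ e * G) = 2 ^ e * U G := by
  induction e generalizing G with
  | zero => simp
  | succ e ih => rw [pow_succ, mul_assoc, ih, two_mul_U]; ring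

lemma V_one (m : ℕ) : V m 1 = τ m := by rw [V, one_mul]; rfl

/-- one step for even `m` -/
lemma V_even_step (k e : ℕ) {G : PowerSeries ℤ} (hG : G ∈ S) (ho : Odd (constantCoeff G)) :
    ∃ H ∈ S, Odd (constantCoeff H) ∧ V (2 * k) (2 ^ e * u * G) = 2 ^ (e + 1) * u * H := by
  obtain ⟨r, hr, h⟩ := U_even_u k G hG
  refine ⟨C (constantCoeff G) + 2 * r, S.add_mem C_const_mem (S.mul_mem two_mem hr), ?_, ?_⟩
  · rw [map_add, map_mul, constantCoeff_C]
    have : constantCoeff (2 : PowerSeries ℤ) = 2 := map_ofNat _ 2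
    rw [this]
    exact ho.add_even (even_two_mul _)
  · have e1 : 2 ^ e * u * G * R ^ (2 * k) = 2 ^ e * (u * G * R ^ (2 * k)) := by ring
    rw [V, e1, U_two_pow, h]; ring

lemma V_even_iter (k e s : ℕ) {G : PowerSeries ℤ} (hG : G ∈ S) (ho : Odd (constantCoeff G)) :
    ∃ H ∈ S, Odd (constantCoeff H) ∧ (V (2 * k))^[s] (2 ^ e * u * G) = 2 ^ (e + s) * u * H := by
  induction s with
  | zero => exact ⟨G, hG, ho, by simp⟩
  | succ s ih =>
    obtain ⟨H, hH, hoH, h⟩ := ih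
    obtain ⟨K, hK, hoK, h2⟩ := V_even_step k (e + s) hH hoH
    exact ⟨K, hK, hoK, by rw [Function.iterate_succ_apply', h, h2, add_assoc]⟩

lemma P_even (a b : ℕ) (hb : Odd b) : ∃ G ∈ S, Odd (constantCoeff G) ∧
    P (2 * (2 ^ a * b)) = 2 ^ (1 + 2 * a) * u * G := by
  obtain ⟨s, hs, ho, h⟩ := τ_val a b hb
  obtain ⟨H, hH, hoH, h2⟩ := V_even_step (2 ^ a * b) (1 + 2 * a) hs ho
  refine ⟨s + 2 * H, S.add_mem hs (S.mul_mem two_mem hH), ?_, ?_⟩
  · rw [map_add, map_mul]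
    have : constantCoeff (2 : PowerSeries ℤ) = 2 := map_ofNat _ 2
    rw [this]
    exact ho.add_even (even_two_mul _)
  · have h3 : V (2 * (2 ^ a * b)) (τ (2 * (2 ^ a * b))) =
        τ (2 * (2 ^ a * b)) + 2 ^ (1 + 2 * a + 1) * u * H := by
      conv_lhs => rw [h, V_add, h2, V_one]
    rw [P, V_one, h3, h]; ring

/-- an element of `ℤ[u]` is congruent to its constant coefficient modulo `2` -/
lemma S_const : ∀ G ∈ S, ∃ H : PowerSeries ℤ, G = C (constantCoeff G) + 2 * H := by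
  refine S_induction (fun G H hG hH => ?_) (fun a G hG => ?_) (fun n => ?_)
  · obtain ⟨G', h1⟩ := hG
    obtain ⟨H', h2⟩ := hH
    refine ⟨G' + H', ?_⟩
    rw [map_add, map_add]
    linear_combination h1 + h2
  · obtain ⟨G', h1⟩ := hG
    refine ⟨a • G', ?_⟩
    have e2 : constantCoeff (a • G) = a * constantCoeff G := by
      rw [zsmul_eq_mul, map_mul]; simp
    have e3 : ((a : ℤ) : PowerSeries ℤ) = C a := by simp
    rw [e2, map_mul, zsmul_eq_mul, zsmul_eq_mul, e3]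
    linear_combination (C a) * h1
  · rcases n with _ | n
    · exact ⟨0, by simp⟩
    · refine ⟨2 * y * u ^ n, ?_⟩
      rw [map_pow, ε_u, zero_pow (by omega), map_zero, pow_succ]
      rw [show u ^ n * u = u ^ n * (4 * y) by rw [u]]
      ring

/-- **Q1**: the exact valuation for even `m`. -/
theorem even_main (k n : ℕ) (hk : 1 ≤ k) (hn : 1 ≤ n) :
    emultiplicity (2 : ℤ) (c (2 * k) (4 * n) - c (2 * k) n) =
      ((padicValNat 2 n + 2 * padicValNat 2 k + 3 : ℕ) : ℕ∞) := by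
  obtain ⟨a, b, hb, rfl⟩ := odd_part k hk
  obtain ⟨s, t, ht, rfl⟩ := odd_part n hn
  obtain ⟨G, hG, ho, h⟩ := P_even a b hb
  obtain ⟨H, hH, hoH, h2⟩ := V_even_iter (2 ^ a * b) (1 + 2 * a) s hG ho
  obtain ⟨K, hK⟩ := S_const H hH
  obtain ⟨x, hx, h3⟩ := coeff_exact (2 * (2 ^ a * b)) (1 + 2 * a + s) hoH
    (Q := 2 ^ (1 + 2 * a + s) * u * H) (H := K) (by rw [← hK]) ht
  rw [diff_iter, h, h2, padic_two ht, padic_two hb]
  rw [emult_eq hx h3]
  congr 1
  ring

end Pool.Agent.Q36.ColBin
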