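import Pool.Agent.Q36.ColBin.Main

/-!
Odd numbers of colours.
-/

open PowerSeries Finset

namespace Pool.Agent.Q36.ColBin

/-- the lattice `2 ^ e u (ℤ[u] + R ℤ[u])` -/
def Lam (e : ℕ) (Q : PowerSeries ℤ) : Prop :=
  ∃ s ∈ S, ∃ t ∈ S, Q = 2 ^ e * u * (s + R * t)

lemma C_nat_mem (n : ℕ) : (C (n : ℤ) : PowerSeries ℤ) ∈ S := by simp

lemma V_Lam (μ e : ℕ) {Q : PowerSeries ℤ} (h : Lam e Q) : Lam (e + 1) (V (2 * μ + 1) Q) := by
  obtain ⟨s, hs, t, ht, rfl⟩ := h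
  obtain ⟨s1, hs1, h1⟩ := U_odd_u μ s hs
  obtain ⟨r, hr, h2⟩ := U_even_u (μ + 1) t ht
  refine ⟨C (constantCoeff t) + 2 * r, S.add_mem C_const_mem (S.mul_mem two_mem hr),
    2 * s1, S.mul_mem two_mem hs1, ?_⟩
  have e1 : 2 ^ e * u * (s + R * t) * R ^ (2 * μ + 1) =
      2 ^ e * (u * s * R ^ (2 * μ + 1) + u * t * R ^ (2 * (μ + 1))) := by ring
  rw [V, e1, U_two_pow, map_add, h1, h2]; ring

lemma iter_Lam (μ e s : ℕ) {Q : PowerSeries ℤ} (h : Lam e Q) :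
    Lam (e + s) ((V (2 * μ + 1))^[s] Q) := by
  induction s with
  | zero => exact h
  | succ s ih =>
    rw [Function.iterate_succ_apply']
    exact V_Lam μ (e + s) ih

lemma Lam_dvd (m e : ℕ) {Q : PowerSeries ℤ} (h : Lam e Q) (n : ℕ) :
    (2 : ℤ) ^ (e + 2) ∣ coeff n (Q * F m) := by
  obtain ⟨s, _, t, _, rfl⟩ := h
  exact coeff_dvd m e rfl n

lemma U_usq_mem (κ : ℕ) {G : PowerSeries ℤ} (hG : G ∈ S) : ∃ s ∈ S,
    U (u ^ 2 * G * R ^ (2 * κ)) = 4 * u * s := by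
  refine ⟨U (G * R ^ (2 * (κ + 1))), U_even (κ + 1) G hG, ?_⟩
  have e1 : u ^ 2 * G * R ^ (2 * κ) = u ^ 2 * (G * R ^ (2 * κ)) := by ring
  have e2 : R ^ 2 * (G * R ^ (2 * κ)) = G * R ^ (2 * (κ + 1)) := by ring
  rw [e1, U_usq, e2]

lemma sixteen_U (G : PowerSeries ℤ) : U (16 * G) = 16 * U G := by
  have h : (16 : PowerSeries ℤ) * G = 2 ^ 4 * G := by ring
  rw [h, U_two_pow]; ring

lemma natCast_U (n : ℕ) (G : PowerSeries ℤ) : U ((n : PowerSeries ℤ) * G) = n * U G := by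
  rw [← nsmul_eq_mul, map_nsmul, nsmul_eq_mul]

/-- `V (V 1)` for odd `m = 2 μ + 1` -/
lemma VV_odd (μ : ℕ) : ∃ s ∈ S, V (2 * μ + 1) (V (2 * μ + 1) 1) = τ (2 * (μ + 1)) +
    2 * ((μ : PowerSeries ℤ) * (μ + 1)) * δ (2 * (μ + 1)) + 64 * u * s := by
  obtain ⟨s, hs, h⟩ := (δ_odd μ).2
  obtain ⟨t, ht, h2⟩ := U_usq_mem (μ + 1) hs
  refine ⟨t, ht, ?_⟩
  have e1 : R * (1 + 2 * ((μ : PowerSeries ℤ) * (μ + 1)) * u + 16 * u ^ 2 * s) *
      R ^ (2 * μ + 1) = R ^ (2 * (μ + 1)) + 2 * ((μ * (μ + 1) : ℕ) : PowerSeries ℤ) *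
        (u * R ^ (2 * (μ + 1))) + 16 * (u ^ 2 * s * R ^ (2 * (μ + 1))) := by
    push_cast; ring
  rw [V_one, h, V, e1, map_add, map_add, sixteen_U, h2, mul_assoc, two_mul_U, natCast_U]
  push_cast
  rw [τ, δ]; ring

/-- `m = 4k + 1` -/
lemma P_one (k : ℕ) : ∃ G ∈ S, P (4 * k + 1) =
    2 ^ 1 * u * (C (((2 * k + 1) ^ 2 : ℕ) : ℤ) + 2 * G) := by
  obtain ⟨s3, hs3, h3⟩ := VV_odd (2 * k)
  obtain ⟨s2, hs2, h2⟩ := (δ_even' (2 * k + 1)).1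
  obtain ⟨s1, hs1, h1⟩ := (δ_even' (2 * k + 1)).2
  have e : 4 * k + 1 = 2 * (2 * k) + 1 := by ring
  have hk := S.natCast_mem k
  have h16 : (16 : PowerSeries ℤ) ∈ S := by simp
  have h3' : (3 : PowerSeries ℤ) ∈ S := by simp
  refine ⟨2 * u * s1 + (2 * k * (2 * k + 1)) * (1 + 2 * (2 * k + 1)) +
    4 * (2 * k * (2 * k + 1)) * u * s2 + 16 * s3, ?_, ?_⟩
  · have h2k : (2 * k * (2 * k + 1) : PowerSeries ℤ) ∈ S :=
      S.mul_mem (S.mul_mem two_mem hk) (S.add_mem (S.mul_mem two_mem hk) S.one_mem)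
    exact S.add_mem (S.add_mem (S.add_mem (S.mul_mem (S.mul_mem two_mem u_mem) hs1)
      (S.mul_mem h2k (S.add_mem S.one_mem (S.mul_mem two_mem
        (S.add_mem (S.mul_mem two_mem hk) S.one_mem)))))
      (S.mul_mem (S.mul_mem (S.mul_mem four_mem h2k) u_mem) hs2)) (S.mul_mem h16 hs3)
  · have h4 : (C (((2 * k + 1) ^ 2 : ℕ) : ℤ) : PowerSeries ℤ) =
        (2 * (k : PowerSeries ℤ) + 1) ^ 2 := by simp
    rw [P, e, h3, h2, h1, h4]; push_cast; ring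

/-- `m = 4k + 3`, with `a = k + 1` -/
lemma P_three (k : ℕ) (N : ℕ) (hN : (k + 1) * (k + 2) = 2 * N) : ∃ G ∈ S, P (4 * k + 3) =
    16 * u * (-(N : PowerSeries ℤ)) + 8 * ((k : PowerSeries ℤ) + 1) ^ 4 * u ^ 2 +
      32 * u * G := by
  obtain ⟨s3, hs3, h3⟩ := VV_odd (2 * k + 1)
  obtain ⟨s2, hs2, h2⟩ := (δ_even' (2 * (k + 1))).1
  obtain ⟨s1, hs1, h1⟩ := τ_four (k + 1)
  have e : 4 * k + 3 = 2 * (2 * k + 1) + 1 := by ring
  have e4 : 2 * (2 * k + 1 + 1) = 4 * (k + 1) := by ring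
  have e5 : 2 * (2 * (k + 1)) = 4 * (k + 1) := by ring
  have hk := S.natCast_mem k
  have ha : ((k : PowerSeries ℤ) + 1) ∈ S := S.add_mem hk S.one_mem
  have hN' : ((k : PowerSeries ℤ) + 1) * (k + 2) = 2 * (N : PowerSeries ℤ) := by
    have := congrArg (Nat.cast : ℕ → PowerSeries ℤ) hN
    push_cast at this
    exact this
  rw [e5] at h2
  rw [e4] at h3
  refine ⟨2 * ((k : PowerSeries ℤ) + 1) ^ 3 + u * s1 +
    ((k : PowerSeries ℤ) + 1) * (2 * k + 1) * u * s2 + 2 * s3, ?_, ?_⟩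
  · exact S.add_mem (S.add_mem (S.add_mem (S.mul_mem two_mem (S.pow_mem ha 3))
      (S.mul_mem u_mem hs1)) (S.mul_mem (S.mul_mem (S.mul_mem ha
        (S.add_mem (S.mul_mem two_mem hk) S.one_mem)) u_mem) hs2)) (S.mul_mem two_mem hs3)
  · rw [P, e, h3, h2, h1]
    push_cast
    linear_combination (-8 * u) * hN'

/-- first step for `m = 4k + 3` -/
lemma VP_three (k : ℕ) : ∃ G ∈ S, V (4 * k + 3) (P (4 * k + 3)) =
    2 ^ 5 * u * (R * (C (((k + 1) ^ 4 : ℕ) : ℤ) + 2 * G)) := by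
  obtain ⟨N, hN⟩ : ∃ N : ℕ, (k + 1) * (k + 2) = 2 * N := by
    obtain ⟨N, hN⟩ := Nat.even_mul_succ_self (k + 1)
    exact ⟨N, by rw [← two_mul] at hN; exact hN⟩
  obtain ⟨G, hG, h⟩ := P_three k N hN
  have e : 4 * k + 3 = 2 * (2 * k + 1) + 1 := by ring
  obtain ⟨s4, hs4, h4⟩ := U_odd_u (2 * k + 1) 1 S.one_mem
  obtain ⟨s6, hs6, h6⟩ := U_odd_u (2 * k + 1) G hG
  obtain ⟨s5, hs5, h5⟩ := (δ_odd (2 * k + 1 + 1)).2
  have hk := S.natCast_mem k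
  have hN' := S.natCast_mem N
  have h8 : (8 : PowerSeries ℤ) ∈ S := by simp
  have h3' : (3 : PowerSeries ℤ) ∈ S := by simp
  have ha : ((k : PowerSeries ℤ) + 1) ∈ S := S.add_mem hk S.one_mem
  refine ⟨((k : PowerSeries ℤ) + 1) ^ 4 * (((2 * k + 2) * (2 * k + 3)) * u + 8 * u ^ 2 * s5) +
    (2 * s6 - N * s4), ?_, ?_⟩
  · exact S.add_mem (S.mul_mem (S.pow_mem ha 4) (S.add_mem (S.mul_mem (S.mul_mem
      (S.add_mem (S.mul_mem two_mem hk) two_mem) (S.add_mem (S.mul_mem two_mem hk) h3')) u_mem)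
      (S.mul_mem (S.mul_mem h8 (S.pow_mem u_mem 2)) hs5)))
      (S.sub_mem (S.mul_mem two_mem hs6) (S.mul_mem hN' hs4))
  · have e2 : U (u ^ 2 * R ^ (2 * (2 * k + 1) + 1)) = 4 * u * τ (2 * (2 * k + 1 + 1) + 1) := by
      have e3 : R ^ 2 * R ^ (2 * (2 * k + 1) + 1) = R ^ (2 * (2 * k + 1 + 1) + 1) := by ring
      rw [U_usq, e3]; rfl
    have e7 : (16 * u * (-(N : PowerSeries ℤ)) + 8 * ((k : PowerSeries ℤ) + 1) ^ 4 * u ^ 2 +
        32 * u * G) * R ^ (2 * (2 * k + 1) + 1) =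
        2 ^ 3 * (((((k + 1) ^ 4 : ℕ) : PowerSeries ℤ) * (u ^ 2 * R ^ (2 * (2 * k + 1) + 1)) +
          2 ^ 2 * (u * G * R ^ (2 * (2 * k + 1) + 1))) -
          2 * ((N : PowerSeries ℤ) * (u * 1 * R ^ (2 * (2 * k + 1) + 1)))) := by
      push_cast; ring
    have h9 : (C (((k + 1) ^ 4 : ℕ) : ℤ) : PowerSeries ℤ) = ((k : PowerSeries ℤ) + 1) ^ 4 := by
      simp
    rw [V, h, e, e7, U_two_pow, map_sub, map_add, natCast_U, e2, U_two_pow, h6, two_mul_U,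
      natCast_U, h4, h5, h9]
    push_cast
    ring

lemma V_P_Lam (k s : ℕ) : Lam (5 + s) ((V (4 * k + 3))^[s + 1] (P (4 * k + 3))) := by
  obtain ⟨G, hG, h⟩ := VP_three k
  rw [Function.iterate_succ_apply, h]
  have e : 4 * k + 3 = 2 * (2 * k + 1) + 1 := by ring
  rw [e]
  apply iter_Lam
  refine ⟨0, S.zero_mem, C (((k + 1) ^ 4 : ℕ) : ℤ) + 2 * G, ?_, by rw [zero_add]⟩
  exact S.add_mem (C_nat_mem _) (S.mul_mem two_mem hG)

/-- the first inequality -/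
theorem ineq_one (k n : ℕ) (hn : 1 ≤ n) :
    ((padicValNat 2 n + 3 : ℕ) : ℕ∞) ≤
      emultiplicity (2 : ℤ) (c (4 * k + 1) (4 * n) - c (4 * k + 1) n) := by
  obtain ⟨s, t, ht, rfl⟩ := odd_part n hn
  obtain ⟨G, hG, h⟩ := P_one k
  rw [padic_two ht]
  apply le_emult
  rw [diff_iter]
  have h1 : Lam 1 (P (2 * (2 * k) + 1)) := by
    have e : 2 * (2 * k) + 1 = 4 * k + 1 := by ring
    rw [e, h]
    refine ⟨C (((2 * k + 1) ^ 2 : ℕ) : ℤ) + 2 * G, ?_, 0, S.zero_mem,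
      (by rw [mul_zero, add_zero])⟩
    exact S.add_mem (C_nat_mem _) (S.mul_mem two_mem hG)
  have h2 := Lam_dvd (4 * k + 1) _ (iter_Lam (2 * k) 1 s h1) t
  have e : 2 * (2 * k) + 1 = 4 * k + 1 := by ring
  rw [e] at h2
  have e2 : 1 + s + 2 = s + 3 := by ring
  rwa [e2] at h2

/-- equality in the first inequality for odd `n` -/
theorem eq_one (k n : ℕ) (hn : Odd n) :
    emultiplicity (2 : ℤ) (c (4 * k + 1) (4 * n) - c (4 * k + 1) n) =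
      ((padicValNat 2 n + 3 : ℕ) : ℕ∞) := by
  obtain ⟨G, hG, h⟩ := P_one k
  have h0 := diff_eq (4 * k + 1) n
  have ha : Odd ((((2 * k + 1) ^ 2 : ℕ) : ℤ)) := by
    have : Odd ((2 * k + 1) ^ 2) := Odd.pow ⟨k, rfl⟩
    exact_mod_cast this
  obtain ⟨b, hb, h1⟩ := coeff_exact (4 * k + 1) 1 ha h hn
  have h2 := padic_two (s := 0) hn
  rw [pow_zero, one_mul] at h2
  rw [h0, emult_eq hb h1, h2]

/-- the second inequality -/
theorem ineq_three (k n : ℕ) (hn : 1 ≤ n) :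
    ((padicValNat 2 n + 6 : ℕ) : ℕ∞) ≤
      emultiplicity (2 : ℤ) (c (4 * k + 3) (4 * n) - c (4 * k + 3) n) := by
  obtain ⟨s, t, ht, rfl⟩ := odd_part n hn
  rw [padic_two ht]
  apply le_emult
  rw [diff_iter]
  rcases s with _ | s
  · obtain ⟨N, hN⟩ : ∃ N : ℕ, (k + 1) * (k + 2) = 2 * N := by
      obtain ⟨N, hN⟩ := Nat.even_mul_succ_self (k + 1)
      exact ⟨N, by rw [← two_mul] at hN; exact hN⟩
    obtain ⟨G, hG, h⟩ := P_three k N hN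
    have h1 : P (4 * k + 3) * F (4 * k + 3) = 2 ^ 6 * ((y * (-(N : PowerSeries ℤ)) +
        2 * ((k : PowerSeries ℤ) + 1) ^ 4 * y ^ 2 + 2 * y * G) * F (4 * k + 3)) := by
      rw [h, u]; ring
    rw [Function.iterate_zero, id, h1, coeff_two_pow_mul, zero_add]
    exact Dvd.intro _ rfl
  · have h2 := Lam_dvd (4 * k + 3) _ (V_P_Lam k s) t
    have e2 : 5 + s + 2 = s + 1 + 6 := by ring
    rwa [e2] at h2

/-- for `k ≡ 3 (mod 4)` the second inequality is strict -/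
theorem strict_three (k n : ℕ) (hk : k % 4 = 3) (hn : 1 ≤ n) :
    ((padicValNat 2 n + 7 : ℕ) : ℕ∞) ≤
      emultiplicity (2 : ℤ) (c (4 * k + 3) (4 * n) - c (4 * k + 3) n) := by
  obtain ⟨s, t, ht, rfl⟩ := odd_part n hn
  rw [padic_two ht]
  apply le_emult
  rw [diff_iter]
  obtain ⟨a, ha⟩ : ∃ a, k + 1 = 4 * a := ⟨(k + 1) / 4, by omega⟩
  obtain ⟨G, hG, h⟩ := P_three k (2 * a * (4 * a + 1)) (by
    rw [show k + 2 = 4 * a + 1 by omega, ha]; ring)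
  have h1 : Lam 5 (P (2 * (2 * k + 1) + 1)) := by
    have e : 2 * (2 * k + 1) + 1 = 4 * k + 3 := by ring
    have hka : ((k : PowerSeries ℤ) + 1) = 4 * a := by exact_mod_cast congrArg (Nat.cast : ℕ → PowerSeries ℤ) ha
    refine ⟨-((a : PowerSeries ℤ) * (4 * a + 1)) + 64 * a ^ 4 * u + G, ?_, 0, S.zero_mem, ?_⟩
    · have hm := S.natCast_mem a
      have h64 : (64 : PowerSeries ℤ) ∈ S := by simp
      exact S.add_mem (S.add_mem (S.neg_mem (S.mul_mem hm (S.add_mem (S.mul_mem four_mem hm)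
        S.one_mem))) (S.mul_mem (S.mul_mem h64 (S.pow_mem hm 4)) u_mem)) hG
    · rw [e, h, hka]; push_cast; ring
  have h2 := Lam_dvd (4 * k + 3) _ (iter_Lam (2 * k + 1) 5 s h1) t
  have e : 2 * (2 * k + 1) + 1 = 4 * k + 3 := by ring
  rw [e] at h2
  have e2 : 5 + s + 2 = s + 7 := by ring
  rwa [e2] at h2

/-- equality in the second inequality for `k` even and `n ≡ 2 (mod 4)` -/
theorem eq_three_even (k t : ℕ) (hk : k % 2 = 0) (ht : Odd t) :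
    emultiplicity (2 : ℤ) (c (4 * k + 3) (4 * (2 ^ 1 * t)) - c (4 * k + 3) (2 ^ 1 * t)) =
      ((padicValNat 2 (2 ^ 1 * t) + 6 : ℕ) : ℕ∞) := by
  obtain ⟨G, hG, h⟩ := VP_three k
  have h0 := diff_iter (4 * k + 3) 1 t
  rw [Function.iterate_one] at h0
  have ha : Odd ((((k + 1) ^ 4 : ℕ) : ℤ)) := by
    have : Odd ((k + 1) ^ 4) := Odd.pow (by rw [Nat.odd_iff]; omega)
    exact_mod_cast this
  have h1 : V (4 * k + 3) (P (4 * k + 3)) = 2 ^ 5 * u * (C (((k + 1) ^ 4 : ℕ) : ℤ) +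
      2 * (G + z * (C (((k + 1) ^ 4 : ℕ) : ℤ) + 2 * G))) := by
    rw [h, R_eq_z]; ring
  obtain ⟨b, hb, h2⟩ := coeff_exact (4 * k + 3) 5 ha h1 ht
  rw [h0, emult_eq hb h2, padic_two ht]

/-- equality in the second inequality for `k ≡ 1 (mod 4)` and `n` odd -/
theorem eq_three_one (k n : ℕ) (hk : k % 4 = 1) (hn : Odd n) :
    emultiplicity (2 : ℤ) (c (4 * k + 3) (4 * n) - c (4 * k + 3) n) =
      ((padicValNat 2 n + 6 : ℕ) : ℕ∞) := by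
  obtain ⟨a, ha⟩ : ∃ a, k + 1 = 2 * (2 * a + 1) := ⟨(k + 1) / 4, by omega⟩
  obtain ⟨G, hG, h⟩ := P_three k ((2 * a + 1) * (4 * a + 3)) (by
    rw [show k + 2 = 4 * a + 3 by omega, ha]; ring)
  have h0 := diff_eq (4 * k + 3) n
  have hka : ((k : PowerSeries ℤ) + 1) = 2 * (2 * a + 1) := by
    exact_mod_cast congrArg (Nat.cast : ℕ → PowerSeries ℤ) ha
  have hC : (C (-(((2 * a + 1) * (4 * a + 3) : ℕ) : ℤ)) : PowerSeries ℤ) =
      -((2 * (a : PowerSeries ℤ) + 1) * (4 * a + 3)) := by simp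
  have h1 : P (4 * k + 3) = 2 ^ 4 * u * (C (-(((2 * a + 1) * (4 * a + 3) : ℕ) : ℤ)) +
      2 * (4 * (2 * a + 1) ^ 4 * u + G)) := by
    rw [h, hka, hC]; push_cast; ring
  have hodd : Odd (-(((2 * a + 1) * (4 * a + 3) : ℕ) : ℤ)) := by
    have h1 : Odd ((2 * a + 1) * (4 * a + 3)) :=
      Odd.mul ⟨a, rfl⟩ ⟨2 * a + 1, by ring⟩
    have h2 : Odd ((((2 * a + 1) * (4 * a + 3) : ℕ) : ℤ)) := by exact_mod_cast h1
    exact h2.neg
  obtain ⟨b, hb, h2⟩ := coeff_exact (4 * k + 3) 4 hodd h1 hn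
  have h3 := padic_two (s := 0) hn
  rw [pow_zero, one_mul] at h3
  rw [h0, emult_eq hb h2, h3]

end Pool.Agent.Q36.ColBin
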